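import Pool.Agent.H83.UE.Targets

/-!
# The contraction properties of the direct image
-/

set_option autoImplicit false

open Polynomial MeasureTheory Filter Topology
open scoped OnePoint ComplexConjugate ENNReal

namespace Pool.Agent.H11.UDA

open Pool.Agent.H83.UE

lemma sum_nodup {α : Type} [DecidableEq α] (s : Multiset α) (hs : s.Nodup) (f : α → ℝ≥0∞) :
    (s.map f).sum = ∑ x ∈ s.toFinset, f x := by
  rw [Finset.sum, Multiset.toFinset_val, Multiset.dedup_eq_self.2 hs]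

lemma sq_sum {α : Type} (s : Finset α) (f : α → ℝ≥0∞) :
    (∑ x ∈ s, f x) ^ 2 ≤ (s.card : ℝ≥0∞) * ∑ x ∈ s, f x ^ 2 := by
  have h := ENNReal.rpow_sum_le_const_mul_sum_rpow s f (p := 2) one_le_two
  have h1 : (2 : ℝ) - 1 = 1 := by norm_num
  rw [h1, ENNReal.rpow_one] at h
  simpa only [ENNReal.rpow_two] using h

lemma div_mul_le' (a b : ℝ≥0∞) (hb : b ≠ ⊤) : a / b * b ≤ a := by
  by_cases h : b = 0
  · rw [h, mul_zero]
    exact zero_le
  · rw [ENNReal.div_mul_cancel h hb]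

theorem pf_CON (h1 : T_SIM) (h2 : T_ARE) : T_CON := by
  intro D P Q hD hPQ hP hQ hPQD H hH
  obtain ⟨E, hE⟩ := h1 D P Q hD hPQ hP hQ hPQD
  have hdeg : 0 < P.natDegree ∨ 0 < Q.natDegree := by
    rcases hPQD with h | h
    · left; omega
    · right; omega
  have hae : ∀ᵐ z : ℂ, z ∉ E := by
    have h3 : (volume : Measure ℂ) (E : Set ℂ) = 0 := E.finite_toSet.measure_zero volume
    exact compl_mem_ae_iff.2 h3
  obtain ⟨h', hh'⟩ : ∃ h' : ℂ → ℂ, h' = deriv (fun y => P.eval y / Q.eval y) := ⟨_, rfl⟩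
  have hm : Measurable fun x => ‖h' x‖ₑ := by
    rw [hh']
    exact (measurable_deriv _).enorm
  rw [← hh']
  have hA : ∀ H : ℂ → ℝ≥0∞, Measurable H →
      ∫⁻ z, ∑ x ∈ (P - C z * Q).roots.toFinset, H x = ∫⁻ x, H x * ‖h' x‖ₑ ^ 2 := by
    intro H hH
    rw [hh']
    exact h2 P Q hPQ hdeg H hH
  constructor
  · calc ∫⁻ z, ((P - C z * Q).roots.map fun x => H x / ‖h' x‖ₑ).sum ^ 2
        ≤ ∫⁻ z, (D : ℝ≥0∞) * ∑ x ∈ (P - C z * Q).roots.toFinset, (H x / ‖h' x‖ₑ) ^ 2 := by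
          refine lintegral_mono_ae (hae.mono fun z hz => ?_)
          obtain ⟨hn, hc, -⟩ := hE z hz
          rw [sum_nodup _ hn]
          refine (sq_sum _ _).trans (le_of_eq ?_)
          rw [Multiset.toFinset_card_of_nodup hn, hc]
      _ = D * ∫⁻ z, ∑ x ∈ (P - C z * Q).roots.toFinset, (H x / ‖h' x‖ₑ) ^ 2 :=
          lintegral_const_mul' _ _ (ENNReal.natCast_ne_top D)
      _ = D * ∫⁻ x, (H x / ‖h' x‖ₑ) ^ 2 * ‖h' x‖ₑ ^ 2 := by
          rw [hA (fun x => (H x / ‖h' x‖ₑ) ^ 2) ((hH.div hm).pow_const 2)]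
      _ ≤ D * ∫⁻ x, H x ^ 2 := by
          refine mul_le_mul_right (lintegral_mono fun x => ?_) _
          rw [← mul_pow]
          exact pow_le_pow_left₀ zero_le (div_mul_le' _ _ enorm_ne_top) 2
  · calc ∫⁻ z, ((P - C z * Q).roots.map fun x => H x / ‖h' x‖ₑ ^ 2).sum
        ≤ ∫⁻ z, ∑ x ∈ (P - C z * Q).roots.toFinset, H x / ‖h' x‖ₑ ^ 2 := by
          refine lintegral_mono_ae (hae.mono fun z hz => ?_)
          obtain ⟨hn, -, -⟩ := hE z hz
          rw [sum_nodup _ hn]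
      _ = ∫⁻ x, H x / ‖h' x‖ₑ ^ 2 * ‖h' x‖ₑ ^ 2 := hA _ (hH.div (hm.pow_const 2))
      _ ≤ ∫⁻ x, H x := lintegral_mono fun x =>
          div_mul_le' _ _ (ENNReal.pow_ne_top enorm_ne_top)

end Pool.Agent.H11.UDA
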