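import Pool.Agent.H83.UE.Targets

/-!
# The area recursion
-/

set_option autoImplicit false

open Polynomial MeasureTheory Filter Topology Set
open scoped ENNReal

namespace Pool.Agent.H11.UDA

open Pool.Agent.H83.UE

lemma cd_nonneg (v w : ℂ × ℂ) : 0 ≤ cd v w := by
  unfold cd
  positivity

lemma cd_le_two (v w : ℂ × ℂ) : cd v w ≤ 2 := by
  unfold cd wd
  rcases eq_or_lt_of_le (show 0 ≤ ‖v‖ * ‖w‖ by positivity) with h | h
  · rw [← h, div_zero]
    norm_num
  · rw [div_le_iff₀ h]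
    have h1 : ‖v.1‖ ≤ ‖v‖ := norm_fst_le v
    have h2 : ‖v.2‖ ≤ ‖v‖ := norm_snd_le v
    have h3 : ‖w.1‖ ≤ ‖w‖ := norm_fst_le w
    have h4 : ‖w.2‖ ≤ ‖w‖ := norm_snd_le w
    calc ‖v.1 * w.2 - v.2 * w.1‖ ≤ ‖v.1 * w.2‖ + ‖v.2 * w.1‖ := norm_sub_le _ _
      _ ≤ ‖v‖ * ‖w‖ + ‖v‖ * ‖w‖ := by
          rw [norm_mul, norm_mul]
          gcongr
      _ = _ := by ring

lemma cd_meas {H : ℂ × ℂ → ℂ × ℂ} (hH : Continuous H) (j : ℕ) (z : ℂ × ℂ) :
    Measurable fun x : ℂ => cd (H^[j] (x, 1)) z := by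
  have hc : Continuous fun x : ℂ => H^[j] (x, 1) :=
    (hH.iterate j).comp (continuous_id.prodMk continuous_const)
  unfold cd wd
  exact ((hc.fst.mul continuous_const).sub (hc.snd.mul continuous_const)).norm.measurable.div
    (hc.norm.mul continuous_const).measurable

lemma vol_ball (a : ℂ) {r : ℝ} (hr : 0 ≤ r) :
    volume (Metric.ball a r) = ENNReal.ofReal (Real.pi * r ^ 2) := by
  rw [Complex.volume_ball, ENNReal.ofReal_mul Real.pi_pos.le, ENNReal.ofReal_pow hr, mul_comm]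
  congr 1
  rw [← NNReal.coe_real_pi, ENNReal.ofReal_coe_nnreal]

lemma base (R : ℝ) : ∃ K : ℝ, 0 ≤ K ∧ ∀ u : ℝ, 0 < u → ∀ z : ℂ × ℂ, z ≠ 0 →
    volume (Metric.ball (0 : ℂ) R ∩ {x : ℂ | cd (x, 1) z < u}) ≤ ENNReal.ofReal (K * u ^ 2) := by
  obtain ⟨R', hR'⟩ : ∃ R' : ℝ, R' = max R 1 := ⟨_, rfl⟩
  have hR1 : 1 ≤ R' := by rw [hR']; exact le_max_right _ _
  have hRR : R ≤ R' := by rw [hR']; exact le_max_left _ _
  have hR0 : 0 < R' := by linarith
  refine ⟨4 * Real.pi * R' ^ 4, by positivity, fun u hu z hz => ?_⟩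
  have hzn : 0 < ‖z‖ := norm_pos_iff.2 hz
  have hx1 : ∀ x ∈ Metric.ball (0 : ℂ) R, ‖((x, 1) : ℂ × ℂ)‖ ≤ R' ∧ ‖x‖ ≤ R' := by
    intro x hx
    rw [mem_ball_zero_iff] at hx
    refine ⟨?_, by linarith⟩
    rw [Prod.norm_def, norm_one]
    exact max_le (by linarith) hR1
  have hx0 : ∀ x : ℂ, 0 < ‖((x, 1) : ℂ × ℂ)‖ := by
    intro x
    rw [norm_pos_iff]
    intro h
    have := congrArg Prod.snd h
    simp at this
  rcases le_or_gt (‖z.2‖) (‖z‖ / (2 * R')) with h | h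
  · by_cases hu1 : 1 / (2 * R') ≤ u
    · refine (measure_mono inter_subset_left).trans ((measure_mono
        (Metric.ball_subset_ball hRR)).trans ?_)
      rw [vol_ball 0 hR0.le]
      apply ENNReal.ofReal_le_ofReal
      have h1 : 1 ≤ 2 * R' * u := by
        rw [div_le_iff₀ (by positivity)] at hu1
        linarith
      have h2 : 1 ≤ (2 * R' * u) ^ 2 := one_le_pow₀ h1
      have h3 : 0 < Real.pi * R' ^ 2 := by positivity
      calc Real.pi * R' ^ 2 = Real.pi * R' ^ 2 * 1 := by ring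
        _ ≤ Real.pi * R' ^ 2 * (2 * R' * u) ^ 2 := mul_le_mul_of_nonneg_left h2 h3.le
        _ = _ := by ring
    · have hem : Metric.ball (0 : ℂ) R ∩ {x : ℂ | cd (x, 1) z < u} = ∅ := by
        rw [eq_empty_iff_forall_notMem]
        rintro x ⟨hx, hxu⟩
        apply hu1
        refine le_of_lt (lt_of_le_of_lt ?_ hxu)
        obtain ⟨hn, hn'⟩ := hx1 x hx
        unfold cd wd
        rw [le_div_iff₀ (mul_pos (hx0 x) hzn)]
        have h1 : ‖z.2‖ < ‖z‖ := by
          refine lt_of_le_of_lt h ?_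
          rw [div_lt_iff₀ (by positivity)]
          nlinarith
        have h2 : ‖z‖ = ‖z.1‖ := by
          rw [Prod.norm_def] at h1 ⊢
          rcases le_or_gt ‖z.1‖ ‖z.2‖ with h3 | h3
          · rw [max_eq_right h3] at h1
            exact absurd h1 (lt_irrefl _)
          · rw [max_eq_left h3.le]
        have h3 : ‖z.1‖ - ‖x * z.2‖ ≤ ‖x * z.2 - 1 * z.1‖ := by
          rw [one_mul, norm_sub_rev]
          exact norm_sub_norm_le _ _
        have h4 : ‖x * z.2‖ ≤ ‖z‖ / 2 := by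
          rw [norm_mul]
          calc ‖x‖ * ‖z.2‖ ≤ R' * (‖z‖ / (2 * R')) :=
                mul_le_mul hn' h (norm_nonneg _) hR0.le
            _ = ‖z‖ / 2 := by field_simp
        have h5 : 1 / (2 * R') * (‖((x, 1) : ℂ × ℂ)‖ * ‖z‖) ≤ ‖z‖ / 2 := by
          calc 1 / (2 * R') * (‖((x, 1) : ℂ × ℂ)‖ * ‖z‖) ≤ 1 / (2 * R') * (R' * ‖z‖) := by
                gcongr
            _ = ‖z‖ / 2 := by field_simp
        refine h5.trans (le_trans ?_ h3)
        rw [← h2]
        linarith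
      rw [hem, measure_empty]
      exact zero_le
  · have hz2 : 0 < ‖z.2‖ := lt_trans (by positivity) h
    have hz20 : z.2 ≠ 0 := norm_pos_iff.1 hz2
    have hsub : Metric.ball (0 : ℂ) R ∩ {x : ℂ | cd (x, 1) z < u} ⊆
        Metric.ball (z.1 / z.2) (2 * R' ^ 2 * u) := by
      rintro x ⟨hx, hxu⟩
      obtain ⟨hn, -⟩ := hx1 x hx
      have hxu' : cd (x, 1) z < u := hxu
      unfold cd wd at hxu'
      rw [div_lt_iff₀ (mul_pos (hx0 x) hzn)] at hxu'
      rw [mem_ball_iff_norm]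
      have h1 : x - z.1 / z.2 = (x * z.2 - 1 * z.1) / z.2 := by
        field_simp
      rw [h1, norm_div, div_lt_iff₀ hz2]
      refine lt_of_lt_of_le hxu' ?_
      rw [div_lt_iff₀ (by positivity)] at h
      calc u * (‖((x, 1) : ℂ × ℂ)‖ * ‖z‖) ≤ u * (R' * (‖z.2‖ * (2 * R'))) := by
            gcongr
        _ = 2 * R' ^ 2 * u * ‖z.2‖ := by ring
    refine (measure_mono hsub).trans (le_of_eq ?_)
    rw [vol_ball _ (by positivity)]
    congr 1
    ring

lemma step {D E : ℕ} {H : ℂ × ℂ → ℂ × ℂ} {c K R : ℝ} (hE : 2 ≤ E) (hc0 : 0 < c) (hc1 : c ≤ 1)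
    (hH0 : ∀ w, w ≠ 0 → H w ≠ 0)
    (hL : ∀ z : ℂ × ℂ, z ≠ 0 → ∃ x : Fin D → ℂ × ℂ, (∀ i, x i ≠ 0) ∧
      ∀ w : ℂ × ℂ, w ≠ 0 → ∃ i, c * cd w (x i) ^ E ≤ cd (H w) z)
    (hK : ∀ u : ℝ, 0 < u → ∀ z : ℂ × ℂ, z ≠ 0 →
      volume (Metric.ball (0 : ℂ) R ∩ {x : ℂ | cd (x, 1) z < u}) ≤ ENNReal.ofReal (K * u ^ 2)) :
    ∀ (j : ℕ) (u : ℝ) (z : ℂ × ℂ), 0 < u → z ≠ 0 →
      volume (Metric.ball (0 : ℂ) R ∩ {x : ℂ | cd (H^[j] (x, 1)) z < (c * u) ^ (E ^ j) / c}) ≤
        (D : ℝ≥0∞) ^ j * ENNReal.ofReal (K * u ^ 2) := by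
  have hne : ∀ (j : ℕ) (x : ℂ), H^[j] (x, 1) ≠ 0 := by
    intro j x
    induction j with
    | zero =>
      intro h
      have := congrArg Prod.snd h
      simp at this
    | succ j ih =>
      rw [Function.iterate_succ_apply']
      exact hH0 _ ih
  intro j
  induction j with
  | zero =>
    intro u z hu hz
    have h1 : (c * u) ^ (E ^ 0) / c = u := by
      rw [pow_zero, pow_one]
      field_simp
    rw [h1, pow_zero, one_mul]
    exact hK u hu z hz
  | succ j ih =>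
    intro u z hu hz
    obtain ⟨x, hx0, hx⟩ := hL z hz
    have hsub : Metric.ball (0 : ℂ) R ∩
        {y : ℂ | cd (H^[j + 1] (y, 1)) z < (c * u) ^ (E ^ (j + 1)) / c} ⊆
        ⋃ i : Fin D, (Metric.ball (0 : ℂ) R ∩
          {y : ℂ | cd (H^[j] (y, 1)) (x i) < (c * u) ^ (E ^ j) / c}) := by
      rintro y ⟨hy, hyt⟩
      obtain ⟨i, hi⟩ := hx _ (hne j y)
      refine mem_iUnion.2 ⟨i, hy, ?_⟩
      by_contra hcon
      rw [Set.mem_ofPred_eq, not_lt] at hcon
      have hyt' : cd (H^[j + 1] (y, 1)) z < (c * u) ^ (E ^ (j + 1)) / c := hyt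
      rw [Function.iterate_succ_apply'] at hyt'
      have h1 : c * ((c * u) ^ (E ^ j) / c) ^ E ≤ c * cd (H^[j] (y, 1)) (x i) ^ E := by
        gcongr
      have h2 : (c * u) ^ (E ^ (j + 1)) / c ≤ c * ((c * u) ^ (E ^ j) / c) ^ E := by
        rw [div_pow, ← pow_mul, ← pow_succ, mul_div_assoc', div_le_div_iff₀ hc0 (by positivity)]
        have h3 : c ^ E ≤ c ^ 2 := pow_le_pow_of_le_one hc0.le hc1 hE
        calc (c * u) ^ E ^ (j + 1) * c ^ E ≤ (c * u) ^ E ^ (j + 1) * c ^ 2 := by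
              gcongr
          _ = c * (c * u) ^ E ^ (j + 1) * c := by ring
      linarith
    refine (measure_mono hsub).trans ((measure_iUnion_fintype_le _ _).trans ?_)
    calc ∑ i : Fin D, volume (Metric.ball (0 : ℂ) R ∩
          {y : ℂ | cd (H^[j] (y, 1)) (x i) < (c * u) ^ (E ^ j) / c})
        ≤ ∑ i : Fin D, (D : ℝ≥0∞) ^ j * ENNReal.ofReal (K * u ^ 2) :=
          Finset.sum_le_sum fun i _ => ih u (x i) hu (hx0 i)
      _ = (D : ℝ≥0∞) ^ (j + 1) * ENNReal.ofReal (K * u ^ 2) := by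
          rw [Finset.sum_const, Finset.card_univ, Fintype.card_fin, nsmul_eq_mul, pow_succ']
          ring

/-- the exponential tail -/
lemma tail {A b s0 : ℝ} (hA : 0 ≤ A) (hb : 0 < b) :
    ∫⁻ s in Ioi s0, ENNReal.ofReal (A * Real.exp (-b * s)) =
      ENNReal.ofReal (A * (Real.exp (-b * s0) / b)) := by
  rw [← ofReal_integral_eq_lintegral_ofReal ((exp_neg_integrableOn_Ioi s0 hb).const_mul A)
    (Eventually.of_forall fun s => by positivity)]
  congr 1
  rw [integral_const_mul, integral_exp_mul_Ioi (by linarith : -b < 0)]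
  congr 1
  rw [neg_div_neg_eq]

lemma meas_le {f : ℂ → ℝ} {g : ℂ → ℝ} (hf : ∀ x, f x = |Real.log (g x)|) (hg0 : ∀ x, 0 ≤ g x)
    (hg2 : ∀ x, g x ≤ 2) {s : ℝ} (hs : Real.log 2 ≤ s) {B : Set ℂ} :
    B ∩ {x | s < f x} ⊆ B ∩ {x | g x < Real.exp (-s)} := by
  rintro x ⟨hxB, hx⟩
  refine ⟨hxB, ?_⟩
  have hx' : s < f x := hx
  rw [hf x] at hx'
  have hl2 : 0 < Real.log 2 := Real.log_pos one_lt_two
  have hg : 0 < g x := by
    rcases (hg0 x).lt_or_eq with h | h
    · exact h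
    · rw [← h, Real.log_zero, abs_zero] at hx'
      linarith
  have h1 : Real.log (g x) ≤ Real.log 2 := Real.log_le_log hg (hg2 x)
  have h2 : s < -Real.log (g x) := by
    rcases lt_abs.1 hx' with h | h
    · linarith
    · exact h
  change g x < Real.exp (-s)
  rw [← Real.log_lt_iff_lt_exp hg]
  linarith

theorem pf_REC : T_REC := by
  intro D E H hE hD hHc hH0 hL R
  obtain ⟨c₁, hc₁, hL1⟩ := hL
  obtain ⟨c, hc⟩ : ∃ c : ℝ, c = min c₁ 1 := ⟨_, rfl⟩
  have hc0 : 0 < c := by rw [hc]; exact lt_min hc₁ one_pos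
  have hc1 : c ≤ 1 := by rw [hc]; exact min_le_right _ _
  have hcc : c ≤ c₁ := by rw [hc]; exact min_le_left _ _
  have hL2 : ∀ z : ℂ × ℂ, z ≠ 0 → ∃ x : Fin D → ℂ × ℂ, (∀ i, x i ≠ 0) ∧
      ∀ w : ℂ × ℂ, w ≠ 0 → ∃ i, c * cd w (x i) ^ E ≤ cd (H w) z := by
    intro z hz
    obtain ⟨x, hx, hw⟩ := hL1 z hz
    refine ⟨x, hx, fun w hw0 => ?_⟩
    obtain ⟨i, hi⟩ := hw w hw0
    exact ⟨i, (mul_le_mul_of_nonneg_right hcc (pow_nonneg (cd_nonneg _ _) _)).trans hi⟩
  obtain ⟨K, hK0, hK⟩ := base R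
  have hst := step (R := R) hE hc0 hc1 hH0 hL2 hK
  obtain ⟨V, hV⟩ : ∃ V : ℝ, V = Real.pi * (max R 0) ^ 2 := ⟨_, rfl⟩
  have hV0 : 0 ≤ V := by rw [hV]; positivity
  have hVB : volume (Metric.ball (0 : ℂ) R) ≤ ENNReal.ofReal V := by
    rw [hV, ← vol_ball 0 (le_max_right R 0)]
    exact measure_mono (Metric.ball_subset_ball (le_max_left _ _))
  obtain ⟨M, hM⟩ : ∃ M : ℝ, M = K / c ^ 2 := ⟨_, rfl⟩
  have hM0 : 0 ≤ M := by rw [hM]; positivity
  have hl2 : 0 < Real.log 2 := Real.log_pos one_lt_two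
  have hDr : (1 : ℝ) ≤ D := by exact_mod_cast hD
  have hlD : 0 ≤ Real.log D := Real.log_nonneg hDr
  refine ⟨V * (Real.log 2 + Real.log D + M) + 1, by positivity, fun j z hz => ?_⟩
  obtain ⟨e, he⟩ : ∃ e : ℝ, e = (E : ℝ) ^ j := ⟨_, rfl⟩
  have he1 : 1 ≤ e := by
    rw [he]
    exact one_le_pow₀ (by exact_mod_cast (by omega : 1 ≤ E))
  have he0 : 0 < e := by linarith
  obtain ⟨s0, hs0⟩ : ∃ s0 : ℝ, s0 = Real.log 2 + e / 2 * (j * Real.log D + M) := ⟨_, rfl⟩
  have hs0l : Real.log 2 ≤ s0 := by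
    rw [hs0]
    have : 0 ≤ e / 2 * (j * Real.log D + M) := by positivity
    linarith
  have hs00 : 0 < s0 := by linarith
  -- the distribution function
  have hdist : ∀ s : ℝ, s0 < s → (volume.restrict (Metric.ball (0 : ℂ) R))
      {x | s < |Real.log (cd (H^[j] (x, 1)) z)|} ≤
      ENNReal.ofReal (D ^ j * M * Real.exp (-(2 / e) * s)) := by
    intro s hs
    have hmeas : MeasurableSet {x : ℂ | s < |Real.log (cd (H^[j] (x, 1)) z)|} :=
      measurableSet_lt measurable_const ((cd_meas hHc j z).log.abs)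
    rw [Measure.restrict_apply hmeas, inter_comm]
    refine (measure_mono (meas_le (g := fun x => cd (H^[j] (x, 1)) z) (fun x => rfl)
      (fun x => cd_nonneg _ _) (fun x => cd_le_two _ _) (by linarith))).trans ?_
    obtain ⟨u, hu⟩ : ∃ u : ℝ, u = Real.exp (-s / e) / c := ⟨_, rfl⟩
    have hu0 : 0 < u := by rw [hu]; positivity
    have hcu : c * u = Real.exp (-s / e) := by
      rw [hu]
      field_simp
    have hpow : (c * u) ^ (E ^ j) = Real.exp (-s) := by
      rw [hcu, ← Real.exp_nat_mul]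
      congr 1
      push_cast
      rw [← he]
      field_simp
    have h1 := hst j u z hu0 hz
    rw [hpow] at h1
    refine (measure_mono (inter_subset_inter_right _ ?_)).trans (h1.trans ?_)
    · intro x hx
      have hx' : cd (H^[j] (x, 1)) z < Real.exp (-s) := hx
      refine lt_of_lt_of_le hx' ?_
      rw [le_div_iff₀ hc0]
      exact mul_le_of_le_one_right (Real.exp_pos _).le hc1
    · rw [← ENNReal.ofReal_natCast, ← ENNReal.ofReal_pow (by positivity),
        ← ENNReal.ofReal_mul (by positivity)]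
      apply ENNReal.ofReal_le_ofReal
      apply le_of_eq
      rw [hu, hM, div_pow, ← Real.exp_nat_mul]
      have h2 : ((2 : ℕ) : ℝ) * (-s / e) = -(2 / e) * s := by
        push_cast
        ring
      rw [h2]
      ring
  -- layer cake
  have hlc := lintegral_eq_lintegral_meas_lt (volume.restrict (Metric.ball (0 : ℂ) R))
    (f := fun x : ℂ => |Real.log (cd (H^[j] (x, 1)) z)|)
    (Eventually.of_forall fun x => abs_nonneg _) ((cd_meas hHc j z).log.abs.aemeasurable)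
  rw [hlc]
  have hsplit : Ioi (0 : ℝ) = Ioc 0 s0 ∪ Ioi s0 := (Ioc_union_Ioi_eq_Ioi hs00.le).symm
  rw [hsplit, lintegral_union measurableSet_Ioi (Ioc_disjoint_Ioi le_rfl)]
  have hI1 : ∫⁻ s in Ioc 0 s0, (volume.restrict (Metric.ball (0 : ℂ) R))
      {x | s < |Real.log (cd (H^[j] (x, 1)) z)|} ≤ ENNReal.ofReal (V * s0) := by
    calc ∫⁻ s in Ioc 0 s0, (volume.restrict (Metric.ball (0 : ℂ) R))
            {x | s < |Real.log (cd (H^[j] (x, 1)) z)|}
        ≤ ∫⁻ s in Ioc 0 s0, ENNReal.ofReal V := by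
          refine lintegral_mono fun s => ?_
          refine (measure_mono (subset_univ _)).trans ?_
          rw [Measure.restrict_apply_univ]
          exact hVB
      _ = ENNReal.ofReal (V * s0) := by
          rw [setLIntegral_const, Real.volume_Ioc, sub_zero, ← ENNReal.ofReal_mul hV0]
  have hb : 0 < 2 / e := by positivity
  have hI2 : ∫⁻ s in Ioi s0, (volume.restrict (Metric.ball (0 : ℂ) R))
      {x | s < |Real.log (cd (H^[j] (x, 1)) z)|} ≤ ENNReal.ofReal (e / 2) := by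
    refine (setLIntegral_mono' measurableSet_Ioi fun s hs => hdist s hs).trans ?_
    rw [tail (by positivity) hb]
    apply ENNReal.ofReal_le_ofReal
    have h1 : -(2 / e) * s0 = -(2 / e * Real.log 2) - j * Real.log D - M := by
      rw [hs0]
      field_simp
      ring
    have h2 : Real.exp (-(2 / e) * s0) ≤ Real.exp (-(j * Real.log D) - M) := by
      rw [h1]
      apply Real.exp_le_exp.2
      have : 0 < 2 / e * Real.log 2 := by positivity
      linarith
    have h3 : Real.exp (-(j * Real.log D) - M) = ((D : ℝ) ^ j)⁻¹ * Real.exp (-M) := by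
      rw [sub_eq_add_neg, Real.exp_add, Real.exp_neg, Real.exp_nat_mul, Real.exp_log (by linarith)]
    have h4 : M * Real.exp (-M) ≤ 1 := by
      have h5 := Real.add_one_le_exp M
      rw [Real.exp_neg, ← div_eq_mul_inv, div_le_one (Real.exp_pos _)]
      linarith
    calc D ^ j * M * (Real.exp (-(2 / e) * s0) / (2 / e))
        ≤ D ^ j * M * ((((D : ℝ) ^ j)⁻¹ * Real.exp (-M)) / (2 / e)) := by
          rw [← h3]
          gcongr
      _ = (M * Real.exp (-M)) * (e / 2) := by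
          have : (D : ℝ) ^ j ≠ 0 := by positivity
          field_simp
      _ ≤ 1 * (e / 2) := by gcongr
      _ = e / 2 := one_mul _
  refine (add_le_add hI1 hI2).trans ?_
  rw [← ENNReal.ofReal_add (by positivity) (by positivity)]
  apply ENNReal.ofReal_le_ofReal
  rw [← he, hs0]
  have hj : (0 : ℝ) ≤ j := Nat.cast_nonneg j
  have h5 : Real.log 2 + e / 2 * (j * Real.log D + M) ≤
      (Real.log 2 + Real.log D + M) * (j + 1) * e := by
    have h6 : Real.log 2 ≤ Real.log 2 * ((j + 1) * e) := by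
      have : 1 ≤ (j + 1) * e := by nlinarith
      nlinarith
    have h7 : e / 2 * (j * Real.log D) ≤ Real.log D * ((j + 1) * e) := by
      have h8 : 0 ≤ e * Real.log D := by positivity
      nlinarith
    have h9 : e / 2 * M ≤ M * ((j + 1) * e) := by
      have h8 : 0 ≤ e * M := by positivity
      nlinarith
    linarith
  have h6 : e / 2 ≤ 1 * (j + 1) * e := by nlinarith
  have h7 := mul_le_mul_of_nonneg_left h5 hV0
  linarith

end Pool.Agent.H11.UDA
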